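import Mathlib
import Pool.Agent.H79.PM.Surf

/-!
# Every convex polygon tiles a closed polyhedral manifold

Question Q1 asks whether every polyhedral manifold has a face with at most five edges. The library
answers it (no) with one manifold in `ℝ⁵`. Here: for every convex `m`-gon `Q`, for every `m`, there
is a closed connected polyhedral manifold in `ℝ^(m + 2)` with exactly `2 ^ m` faces, all of them
congruent to `Q`, and the isometries permuting the faces are transitive on the faces.

The points `(A u, B u, ± c h₀(u), ..., ± c h_{m-1}(u))`, where `u` runs through `Q` and the `h_j` are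
the affine functions vanishing on the edges, form `2 ^ m` affine copies of `Q` glued along their
edges, four at each vertex; the scale `c` and the two linear functions `A, B` can be chosen so that
all the copies are isometric to `Q`.

The definitions `IsPolygon`, `IsEdge`, `Meets`, `IsClosedSurface`, `IsPolyhedralManifold`,
`ConvexPolygon`, `Congruent` are in `Pool.Agent.H79.PM.Defs`.
-/

set_option autoImplicit false

open Set Pool.Agent.H79.PM

namespace Pool.Agent.Results.MP_def5ca_co.EveryPolygon

/-- the points `(i, i²)` are the vertices of a convex `m`-gon -/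
lemma parabola (m : ℕ) [NeZero m] (hm : 3 ≤ m) :
    ConvexPolygon (fun i : Fin m => (!₂[(i.val : ℝ), (i.val : ℝ) ^ 2] : E 2)) := by
  obtain ⟨k, rfl⟩ : ∃ k, m = k + 3 := ⟨m - 3, by omega⟩
  intro i j hji hji1
  have hj := j.isLt
  have hi := i.isLt
  have h1 : j.val ≠ i.val := fun h => hji (Fin.ext h)
  have h2 : j.val ≠ (i + 1).val := fun h => hji1 (Fin.ext h)
  have hval : (i + 1).val = (i.val + 1) % (k + 3) := by
    rw [Fin.val_add]
    congr 1
  unfold cross
  simp only [PiLp.sub_apply]
  by_cases hlast : i.val + 1 = k + 3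
  · rw [hlast, Nat.mod_self] at hval
    rw [hval] at h2 ⊢
    have hiv : (i.val : ℝ) = k + 2 := by
      have : i.val = k + 2 := by omega
      rw [this]; push_cast; ring
    have h3 : (1 : ℝ) ≤ j.val := by exact_mod_cast (by omega : 1 ≤ j.val)
    have h4 : (j.val : ℝ) + 1 ≤ k + 2 := by exact_mod_cast (by omega : j.val + 1 ≤ k + 2)
    simp [hiv]
    have h5 : 0 < ((k : ℝ) + 2) * j.val * (k + 2 - j.val) := by
      have : (0 : ℝ) < k + 2 - j.val := by linarith
      have : (0 : ℝ) < j.val := by linarith
      positivity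
    nlinarith [h5]
  · have hlt : i.val + 1 < k + 3 := by omega
    rw [Nat.mod_eq_of_lt hlt] at hval
    rw [hval] at h2 ⊢
    have h3 : (0 : ℝ) < ((j.val : ℝ) - i.val) * ((j.val : ℝ) - i.val - 1) := by
      rcases lt_or_gt_of_ne h1 with h | h
      · have : (j.val : ℝ) + 1 ≤ i.val := by exact_mod_cast h
        nlinarith
      · have : (i.val : ℝ) + 2 ≤ j.val := by
          exact_mod_cast (by omega : i.val + 2 ≤ j.val)
        nlinarith
    simp
    nlinarith [h3]

theorem result :
    (∃ (n : ℕ) (F : Set (Set (E n))), IsPolyhedralManifold F ∧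
      ∀ S ∈ F, ∃ k, 6 ≤ k ∧ IsPolygon S k) ∧
    ∀ (m : ℕ) [NeZero m], 3 ≤ m →
      (∃ p : Fin m → E 2, ConvexPolygon p) ∧
      ∀ p : Fin m → E 2, ConvexPolygon p →
        ∃ F : Set (Set (E (m + 2))), IsPolyhedralManifold F ∧ F.ncard = 2 ^ m ∧
          (∀ S ∈ F, IsPolygon S m ∧ Congruent S (convexHull ℝ (range p))) ∧
          ∀ S ∈ F, ∀ T ∈ F, ∃ ρ : E (m + 2) ≃ₗᵢ[ℝ] E (m + 2),
            ρ '' S = T ∧ ∀ R ∈ F, ρ '' R ∈ F := by
  refine ⟨?_, fun m _ hm => ⟨⟨_, parabola m hm⟩, fun p hp => main hm hp⟩⟩
  obtain ⟨F, h1, _, h2, _⟩ := main (m := 6) (by norm_num) (parabola 6 (by norm_num))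
  exact ⟨8, F, h1, fun S hS => ⟨6, le_refl 6, (h2 S hS).1⟩⟩

end Pool.Agent.Results.MP_def5ca_co.EveryPolygon
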